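import Mathlib
import Pool.Agent.H80.FlagDefs
import Pool.Agent.H80.Flag

open Pool.Agent.H80.Flag CategoryTheory

theorem Pool.Agent.Results.MP_0548d2_gt.Crown.result :
    ∃ (C : Type) (_ : PartialOrder C) (M : C ⥤ ModuleCat ℚ), Finite C ∧ IsConnected C ∧
      (∀ x, FiniteDimensional ℚ (M.obj x)) ∧ Stable M ∧ ¬ StronglyStable M :=
  ⟨Crown, inferInstance, M, inferInstance, conn,
    fun _ => inferInstanceAs (FiniteDimensional ℚ (ℚ × ℚ)), stable, not_strong⟩
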